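import Pool.Agent.TH658.Sos.PrUp

/-!
# Algebraic proofs of non-isomorphism for pseudorandom graphs have degree of order `log n`

Part 1: for every `ε > 0` there is `c > 0` such that for all large `n` there are two `n`-vertex
graphs `G`, `H` in which all degrees are `n / 2` and all numbers of common neighbours are `n / 4`
up to `ε n`, and every bijection between them is wrong on a fraction at least `1 / 2 - ε` of all
pairs of vertices, but whose isomorphism is refuted in degree at most `c log n` neither by the
polynomial calculus over any field of characteristic different from two nor by the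
Positivstellensatz calculus over the reals (in particular not by the sum-of-squares method).

Part 2: for graphs with `ε = 1 / 32` degree `5 log n + 3` always suffices, over every field: the
polynomial calculus refutes the isomorphism of such a graph with any other graph that is not
isomorphic to it.

The graphs of part 1 are the ones of the starting result `MP_f1a348_lc.PseudorandomWL`
(`Pool/Agent/W893/PR`), which is about the Weisfeiler-Leman algorithm.
-/

set_option autoImplicit false

namespace Pool.Agent.Results.MP_128e7d_lc.AlgebraicProofs

open Pool.Agent.W893.PR Pool.Agent.TH658.Sos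

theorem result :
    (∀ ε : ℝ, 0 < ε → ∃ c : ℝ, 0 < c ∧ ∃ n₀ : ℕ, ∀ n : ℕ, n₀ ≤ n →
      ∃ G H : SimpleGraph (Fin n), Pseudorandom ε G ∧ Pseudorandom ε H ∧
        (∀ π : Equiv.Perm (Fin n), (1 / 2 - ε) * (n : ℝ) ^ 2 ≤ errors G H π) ∧
        ∀ d : ℕ, (d : ℝ) ≤ c * Real.log n →
          (∀ (K : Type) [Field K], (2 : K) ≠ 0 → ¬ PCRefutes K G H d) ∧ ¬ PosRefutes G H d) ∧
    ∀ (n : ℕ) (G H : SimpleGraph (Fin n)), Pseudorandom (1 / 32) G → IsEmpty (G ≃g H) →
      ∀ d : ℕ, 5 * Real.log n + 3 ≤ d →
        (∀ (K : Type) [Field K], PCRefutes K G H d) ∧ PosRefutes G H d :=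
  finalPr

end Pool.Agent.Results.MP_128e7d_lc.AlgebraicProofs
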