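import Pool.Agent.TH658.Sos.ImPr

/-!
# The invertible-map test needs dimension of order `log n` for dense pseudorandom graphs

Part 1: for every `ε > 0` there is `c > 0` such that for all large `n` there are two `n`-vertex
graphs `G`, `H` in which all degrees are `n / 2` and all numbers of common neighbours are `n / 4`
up to `ε n`, and every bijection between them is wrong on a fraction at least `1 / 2 - ε` of all
pairs of vertices, but which the invertible-map test of Dawar and Holm over all fields of
characteristic different from two does not distinguish in any dimension `k ≤ c log n`.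

Part 2: for graphs with `ε = 1 / 32` dimension `5 log n + 3` suffices, with any fields.

The graphs of part 1 are the ones of the starting result `MP_f1a348_lc.PseudorandomWL`
(`Pool/Agent/W893/PR`), which is about the Weisfeiler-Leman algorithm.
-/

set_option autoImplicit false

namespace Pool.Agent.Results.MP_128e7d_lc.InvertibleMaps

open Pool.Agent.W893.PR Pool.Agent.TH658.Sos

theorem result :
    (∀ ε : ℝ, 0 < ε → ∃ c : ℝ, 0 < c ∧ ∃ n₀ : ℕ, ∀ n : ℕ, n₀ ≤ n →
      ∃ G H : SimpleGraph (Fin n), Pseudorandom ε G ∧ Pseudorandom ε H ∧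
        (∀ π : Equiv.Perm (Fin n), (1 / 2 - ε) * (n : ℝ) ^ 2 ≤ errors G H π) ∧
        ∀ k : ℕ, (k : ℝ) ≤ c * Real.log n → IMEquiv 2 k G H) ∧
    ∀ (n : ℕ) (G H : SimpleGraph (Fin n)), Pseudorandom (1 / 32) G →
      ∀ p : ℕ, p ≠ 0 → ∀ k : ℕ, 5 * Real.log n + 3 ≤ k → IMEquiv p k G H →
        Nonempty (G ≃g H) :=
  finalIM

end Pool.Agent.Results.MP_128e7d_lc.InvertibleMaps
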