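import Pool.Agent.TH658.Dg.TMain

/-!
# Linear algebra over any field does not decide the isomorphism of tournaments

There is a constant `C` such that for every `k ≥ 1` there are two non-isomorphic tournaments on at
most `C k` vertices that the `k`-dimensional invertible-map test over all fields of
characteristic different from `3` does not distinguish, and that the `k`-dimensional invertible-map
test over all fields of characteristic different from `5` does not distinguish either. In
particular, for no single field `K` does the `k`-dimensional test over `K` distinguish them, although
the isomorphism of tournaments is decidable in time `n ^ O(log n)` (Babai and Luks).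

The tournaments are composed of three copies of linear systems modulo `15` for the flows on an
expander; see `Pool/Agent/TH658/Dg` and the result `MP_f1a348_lc.TournamentProofs`. The partition of
the tuples into the orbits of local solutions (modulo `3` or modulo `5`) is stable: a class matrix is
a sum over the orbits of a group of order a power of `3` (or `5`), and the inverse of the order of
this group can be used to average local invertible maps to a global one.
-/

set_option autoImplicit false

namespace Pool.Agent.Results.MP_128e7d_lc.TournamentInvertibleMaps

open Pool.Agent.TH658.Dg

theorem result : ∃ C : ℕ, ∀ k : ℕ, 1 ≤ k →
    ∃ (V : Type) (_ : Fintype V) (T T' : V → V → Prop),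
      Fintype.card V ≤ C * k ∧ IsTournament T ∧ IsTournament T' ∧
      (¬ ∃ φ : V ≃ V, ∀ x y, T x y ↔ T' (φ x) (φ y)) ∧
      IMEquiv 3 k T T' ∧ IMEquiv 5 k T T' :=
  ⟨10 ^ 18, mainIM⟩

end Pool.Agent.Results.MP_128e7d_lc.TournamentInvertibleMaps
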