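import Pool.Agent.TH677.GI.Final
import Pool.Agent.TH677.GA.Exist

/-!
# Graph Isomorphism has zero-error reductions to all dense sets without compressible strings

The definitions of the machines with random access to a description, of KT complexity and of the
oracle `R_KT` are in `Pool.Agent.TH677.GA.Defs`; the problem Graph Isomorphism and the conditions
for the oracle are `GraphIso`, `NoCompressible` and `Dense` in `Pool.Agent.TH677.GI.Final`; the
class `ZPP` relative to an oracle is `Pool.Agent.H620R2.Gauge.IsZPP`. Universal machines exist by
`Pool.Agent.TH677.GA.exists_universal`.

The proof. (1) Certificates for a small number of automorphisms. Let `e` be a structure on `m`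
elements. Take `b` random arrangements of the elements, write down the structure in these orders,
and hash the result by a linear hash function to a string that is one bit longer than what is
needed to describe one of `(m! / h) ^ b` possibilities; do this `q` times with the same hash
function, and call `X` the string made of the hash function and of the hash values. If `e` has at
least `h` automorphisms, the KT complexity of `X` is at most `|X| - |X| ^ (1 - ε)`, for a suitable
polynomial `q`: every arrangement can be changed by an automorphism such that every element comes
first in its orbit under the stabilizer of the smaller elements, and the arrangements with this
property are those compatible with a certain forest, so they can be numbered and decoded in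
polynomial time from the orbits. If `e` has fewer than `4 h / 5` automorphisms, then by the leftover
hash lemma `X` is almost uniformly distributed, so it belongs to the dense oracle with a probability
that is not too small. So the oracle certifies, without errors, upper bounds for the number of
automorphisms. (2) If `L₁`, `L₂` are lists of elements of a structure `g`, the union of two copies
of `g`, in which the elements of `L₁` are marked in the first and those of `L₂` in the second one,
has `|S₁| |S₂| + |T₁₂| |T₂₁|` automorphisms, where `Sᵢ` stabilizes `Lᵢ` and `Tᵢⱼ` maps `Lᵢ` to
`Lⱼ`. With the order of the stabilizer of `0, ..., i - 1` known, this shows whether `L` is the image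
of `0, ..., i - 1` under an automorphism. So one can compute generators, orbits and orders of all
stabilizers of `0, ..., i - 1`, from `i = m` down to `0`. (3) Do this for the union `g` of the two
graphs. The automorphisms found are checked. If one of them exchanges the two graphs, they are
isomorphic. If none does, the number computed is at most the number of the automorphisms that
respect the two graphs, and a certified upper bound for the number of all automorphisms that is less
than twice as large shows that the graphs are not isomorphic.
-/

set_option autoImplicit false

namespace Pool.Agent.Results.MP_128e7d_lc.ZeroErrorKT

open Pool.Agent.TH677.GA Pool.Agent.TH677.GI Pool.Agent.H620R2.Gauge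

/-- Let `U` be a universal machine with random access to a description. Graph Isomorphism is in
`ZPP` relative to every oracle `A` that contains, for some `ε > 0`, no string `x` with
`KT(x) ≤ |x| - |x| ^ (1 - ε)`, and that contains at least the fraction `1 / D(N)` of the strings of
length `N`, for a polynomial `D` and large `N`. In particular it is in `ZPP` relative to the set
`R_KT` of the KT-random strings. -/
theorem result (U : Machine) (hU : U.Universal) :
    (∀ (A : Oracle) (ε : ℝ) (D : Polynomial ℕ) (N₀ : ℕ), 0 < ε → NoCompressible U A ε N₀ →
      Dense A D N₀ → IsZPP A GraphIso) ∧ IsZPP U.RKT GraphIso :=
  ⟨fun _ _ _ _ hε h1 h2 => graphIso_isZPP_dense hU hε h1 h2, graphIso_isZPP U hU⟩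

end Pool.Agent.Results.MP_128e7d_lc.ZeroErrorKT
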